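import Mathlib

set_option autoImplicit false

namespace Pool.Agent.Results.MP_3d7355_an.Septic

open scoped ContDiff

/-- The derivative in the first variable t. -/
noncomputable def dt (u : ℝ → ℝ → ℝ) (t y : ℝ) : ℝ := deriv (fun τ => u τ y) t

/-- The Laplacian u_tt + u_yy in the two variables (t, y). -/
noncomputable def lap (u : ℝ → ℝ → ℝ) (t y : ℝ) : ℝ :=
  deriv (deriv (fun τ => u τ y)) t + deriv (deriv (fun η => u t η)) y

/-- The domain 0 < t < 1, |y| < 1. -/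
def InOmega (t y : ℝ) : Prop := 0 < t ∧ t < 1 ∧ |y| < 1

/-- A function of one variable vanishes to finite order at 0. -/
def FiniteOrder (f : ℝ → ℝ) : Prop := f 0 = 0 ∧ ∃ k : ℕ, iteratedDeriv k f 0 ≠ 0

def P (a b c d : ℝ) (t y : ℝ) : ℝ := a * t * y ^ 6 + b * t ^ 3 * y ^ 4 + c * t ^ 5 * y ^ 2 + d * t ^ 7

theorem P_dt (a b c d y : ℝ) : deriv (fun τ => P a b c d τ y) =
    fun t => a * y ^ 6 + 3 * b * t ^ 2 * y ^ 4 + 5 * c * t ^ 4 * y ^ 2 + 7 * d * t ^ 6 := by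
  funext t
  have h : HasDerivAt (fun τ => P a b c d τ y) _ t :=
    (((((hasDerivAt_id' t).const_mul a).mul_const (y ^ 6)).add
      (((hasDerivAt_pow 3 t).const_mul b).mul_const (y ^ 4))).add
      (((hasDerivAt_pow 5 t).const_mul c).mul_const (y ^ 2))).add
      ((hasDerivAt_pow 7 t).const_mul d)
  rw [h.deriv]; push_cast; ring

theorem P_dy (a b c d t : ℝ) : deriv (fun η => P a b c d t η) =
    fun y => 6 * a * t * y ^ 5 + 4 * b * t ^ 3 * y ^ 3 + 2 * c * t ^ 5 * y := by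
  funext y
  have h : HasDerivAt (fun η => P a b c d t η) _ y :=
    ((((hasDerivAt_pow 6 y).const_mul (a * t)).add
      ((hasDerivAt_pow 4 y).const_mul (b * t ^ 3))).add
      ((hasDerivAt_pow 2 y).const_mul (c * t ^ 5))).add_const (d * t ^ 7)
  rw [h.deriv]; push_cast; ring

theorem P_lap (a b c d t y : ℝ) : lap (P a b c d) t y =
    (30 * a + 6 * b) * t * y ^ 4 + (12 * b + 20 * c) * t ^ 3 * y ^ 2 + (2 * c + 42 * d) * t ^ 5 := by
  unfold lap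
  rw [P_dt, P_dy]
  have h1 : HasDerivAt (fun t : ℝ => a * y ^ 6 + 3 * b * t ^ 2 * y ^ 4 + 5 * c * t ^ 4 * y ^ 2 +
      7 * d * t ^ 6) _ t :=
    (((((hasDerivAt_pow 2 t).const_mul (3 * b)).mul_const (y ^ 4)).const_add (a * y ^ 6)).add
      (((hasDerivAt_pow 4 t).const_mul (5 * c)).mul_const (y ^ 2))).add
      ((hasDerivAt_pow 6 t).const_mul (7 * d))
  have h2 : HasDerivAt (fun y : ℝ => 6 * a * t * y ^ 5 + 4 * b * t ^ 3 * y ^ 3 +
      2 * c * t ^ 5 * y) _ y :=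
    (((hasDerivAt_pow 5 y).const_mul (6 * a * t)).add
      ((hasDerivAt_pow 3 y).const_mul (4 * b * t ^ 3))).add
      ((hasDerivAt_id' y).const_mul (2 * c * t ^ 5))
  rw [h1.deriv, h2.deriv]; push_cast; ring

theorem P_smooth (a b c d : ℝ) : ContDiff ℝ ∞ (fun p : ℝ × ℝ => P a b c d p.1 p.2) := by
  unfold P; fun_prop

theorem P_order (a b c d : ℝ) (hd : d ≠ 0) : FiniteOrder (fun t => P a b c d t 0) := by
  refine ⟨by simp [P], 7, ?_⟩
  have : (fun t => P a b c d t 0) = fun t : ℝ => d * t ^ 7 := by funext t; simp [P]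
  rw [this, iteratedDeriv_const_mul_field]
  simp [hd, Nat.descFactorial]

theorem quad (a b c d σ Y : ℝ) (hσ : 0 < σ) (hY : 0 ≤ Y) (ha : 0 < a) (h : b ^ 2 ≤ 4 * a * c)
    (hd : 0 < d) : 0 < a * Y ^ 3 + b * σ * Y ^ 2 + c * σ ^ 2 * Y + d * σ ^ 3 := by
  have h1 : 0 ≤ a * Y ^ 2 + b * σ * Y + c * σ ^ 2 := by
    have : 0 ≤ 4 * a * (a * Y ^ 2 + b * σ * Y + c * σ ^ 2) := by
      nlinarith [sq_nonneg (2 * a * Y + b * σ), mul_nonneg (sub_nonneg.2 h) (sq_nonneg σ)]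
    exact nonneg_of_mul_nonneg_right this (by positivity) |> fun h => h
  have h2 := mul_nonneg hY h1
  have h3 : 0 < d * σ ^ 3 := by positivity
  nlinarith

theorem P_pos (a b c d t y : ℝ) (ht : 0 < t) (ha : 0 < a) (h : b ^ 2 ≤ 4 * a * c) (hd : 0 < d) :
    0 < P a b c d t y := by
  have := mul_pos ht (quad a b c d (t ^ 2) (y ^ 2) (by positivity) (by positivity) ha h hd)
  unfold P
  linarith

theorem low (σ Y : ℝ) (hσ : 0 ≤ σ) (hY : 0 ≤ Y) : 0 ≤ 2160000 * Y ^ 5 - 4200000 * σ * Y ^ 4 +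
    1200000 * σ ^ 2 * Y ^ 3 + 26000000 * σ ^ 3 * Y ^ 2 - 760000 * σ ^ 4 * Y + 17000 * σ ^ 5 := by
  have h1 : 0 ≤ σ * Y ^ 2 * (10 * σ - 3 * Y) ^ 2 := by positivity
  have h2 : 0 ≤ Y ^ 3 * (Y - 2 * σ) ^ 2 := by positivity
  have h3 : 0 ≤ σ ^ 3 * (σ - 30 * Y) ^ 2 := by positivity
  have h4 : 0 ≤ Y ^ 5 := by positivity
  have h5 : 0 ≤ σ ^ 2 * Y ^ 3 := by positivity
  have h6 : 0 ≤ σ ^ 3 * Y ^ 2 := by positivity
  have h7 : 0 ≤ σ ^ 5 := by positivity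
  linarith

theorem hcore (σ Y g1 g2 g3 : ℝ) (hσ : 0 ≤ σ) (hY : 0 ≤ Y) (a1 : 271 / 100 ≤ g1) (a2 : g1 ≤ 3)
    (b1 : 4 ≤ g2) (b2 : g2 ≤ 5) (c2 : g3 ≤ 7) :
    0 ≤ (400 * Y ^ 3 - 6 * σ * Y ^ 2 + 10 * σ ^ 2 * Y + 3 * σ ^ 3) *
        (8978400 * Y ^ 2 - 26400 * g1 * σ * Y + 1932 * g2 * σ ^ 2) -
      (11964 * Y ^ 2 + 128 * σ * Y + 146 * σ ^ 2) *
        (300000 * Y ^ 3 - 3600 * g1 * σ * Y ^ 2 + 840 * g2 * σ ^ 2 * Y + 6 * g3 * σ ^ 3) := by
  have h0 := low σ Y hσ hY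
  have m1 : 0 ≤ σ * Y ^ 4 := by positivity
  have m2 : 0 ≤ σ ^ 2 * Y ^ 3 := by positivity
  have m3 : 0 ≤ σ ^ 3 * Y ^ 2 := by positivity
  have m4 : 0 ≤ σ ^ 4 * Y := by positivity
  have m5 : 0 ≤ σ ^ 5 := by positivity
  have k1 := mul_nonneg m1 (show 0 ≤ -92270400 + 32510400 * g1 + 4200000 by linarith)
  have k2 := mul_nonneg m2
    (show 0 ≤ 45984000 + 619200 * g1 - 9276960 * g2 - 1200000 by linarith)
  have k3 := mul_nonneg m3
    (show 0 ≤ 26935200 + 261600 * g1 - 119112 * g2 - 71784 * g3 - 26000000 by linarith)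
  have k4 := mul_nonneg m4
    (show 0 ≤ -79200 * g1 - 103320 * g2 - 768 * g3 + 760000 by linarith)
  have k5 := mul_nonneg m5 (show 0 ≤ 5796 * g2 - 876 * g3 - 17000 by linarith)
  linarith

theorem compare (t s y : ℝ) (ht : 0 < t) (hts : t ≤ s)
    (h : P 300000 (-3600) 840 6 t y = P 299600 (-3594) 830 3 s y) :
    lap (P 300000 (-3600) 840 6) t y ≤ lap (P 299600 (-3594) 830 3) s y := by
  have hs : 0 < s := lt_of_lt_of_le ht hts
  have mono : Monotone (fun τ => P 300000 (-3600) 840 6 τ y) := by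
    apply monotone_of_deriv_nonneg
    · unfold P; fun_prop
    · intro τ
      rw [P_dt]
      have h1 : 0 ≤ y ^ 2 * (10 * y ^ 2 - τ ^ 2) ^ 2 := by positivity
      have h2 : 0 ≤ y ^ 6 := by positivity
      have h3 : 0 ≤ τ ^ 4 * y ^ 2 := by positivity
      have h4 : 0 ≤ τ ^ 6 := by positivity
      simp only
      linarith
  have hk : 9 / 10 * s ≤ t := by
    by_contra hc
    have h1 := mono (le_of_lt (not_le.1 hc))
    have h2 := P_pos 29600 (-4848 / 5) (834971 / 2500) (651093 / 5000000) s y hs (by norm_num)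
      (by norm_num) (by norm_num)
    simp only at h1
    rw [h] at h1
    unfold P at h1 h2
    linarith
  obtain ⟨r, rfl⟩ : ∃ r, t = r * s := ⟨t / s, by field_simp⟩
  have r1 : 9 / 10 ≤ r := le_of_mul_le_mul_right hk hs
  have r2 : r ≤ 1 := le_of_mul_le_mul_right (by linarith) hs
  have r0 : 0 ≤ r := by linarith
  have p2 : r ^ 2 ≤ 1 := pow_le_one₀ r0 r2
  have p3 : r ^ 3 ≤ 1 := pow_le_one₀ r0 r2
  have p4 : r ^ 4 ≤ 1 := pow_le_one₀ r0 r2
  have p5 : r ^ 5 ≤ 1 := pow_le_one₀ r0 r2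
  have p6 : r ^ 6 ≤ 1 := pow_le_one₀ r0 r2
  have q2 : (9 / 10) ^ 2 ≤ r ^ 2 := pow_le_pow_left₀ (by norm_num) r1 2
  have q3 : (9 / 10) ^ 3 ≤ r ^ 3 := pow_le_pow_left₀ (by norm_num) r1 3
  have q4 : (9 / 10) ^ 4 ≤ r ^ 4 := pow_le_pow_left₀ (by norm_num) r1 4
  have H := hcore (s ^ 2) (y ^ 2) (1 + r + r ^ 2) (1 + r + r ^ 2 + r ^ 3 + r ^ 4)
    (1 + r + r ^ 2 + r ^ 3 + r ^ 4 + r ^ 5 + r ^ 6) (by positivity) (by positivity)
    (by linarith) (by linarith) (by linarith) (by linarith) (by linarith)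
  have H2 := mul_nonneg (mul_nonneg (sq_nonneg s) (sub_nonneg.2 r2)) H
  have hw := P_pos 400 (-6) 10 3 s y hs (by norm_num) (by norm_num) (by norm_num)
  rw [P_lap, P_lap, ← sub_nonneg]
  refine nonneg_of_mul_nonneg_right ?_ hw
  unfold P at h ⊢
  refine H2.trans (le_of_eq ?_)
  linear_combination (11964 * s * y ^ 4 + 128 * s ^ 3 * y ^ 2 + 146 * s ^ 5) * h

theorem result : ∃ u v : ℝ → ℝ → ℝ,
    ContDiff ℝ ∞ (fun p : ℝ × ℝ => u p.1 p.2) ∧ ContDiff ℝ ∞ (fun p : ℝ × ℝ => v p.1 p.2) ∧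
    (∀ t y, InOmega t y → 0 < u t y ∧ 0 < v t y ∧ 0 < dt u t y) ∧
    (∀ y, |y| < 1 → u 0 y = 0) ∧
    (∀ t s y, 0 < t → t ≤ s → s < 1 → |y| < 1 → u t y = v s y → lap u t y ≤ lap v s y) ∧
    dt u 0 0 = 0 ∧ FiniteOrder (fun t => u t 0) ∧ FiniteOrder (fun t => v t 0) ∧
    ∀ t y, InOmega t y → v t y < u t y := by
  refine ⟨P 300000 (-3600) 840 6, P 299600 (-3594) 830 3, P_smooth _ _ _ _, P_smooth _ _ _ _,
    fun t y h => ⟨P_pos _ _ _ _ _ _ h.1 (by norm_num) (by norm_num) (by norm_num),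
      P_pos _ _ _ _ _ _ h.1 (by norm_num) (by norm_num) (by norm_num), ?_⟩,
    fun y _ => by simp [P], fun t s y h1 h2 _ _ h => compare t s y h1 h2 h, ?_,
    P_order _ _ _ _ (by norm_num), P_order _ _ _ _ (by norm_num), fun t y h => ?_⟩
  · have ht := h.1
    have := quad 300000 (-10800) 4200 42 (t ^ 2) (y ^ 2) (by positivity) (by positivity)
      (by norm_num) (by norm_num) (by norm_num)
    unfold dt
    rw [P_dt]
    simp only
    linarith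
  · unfold dt
    rw [P_dt]
    simp
  · have := P_pos 400 (-6) 10 3 t y h.1 (by norm_num) (by norm_num) (by norm_num)
    unfold P at this ⊢
    linarith

end Pool.Agent.Results.MP_3d7355_an.Septic
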